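import Pool.Agent.Helper98.DE.St2

/-!
# Project DE, module SQ2: the number of edges, second bound
-/

set_option autoImplicit false

namespace Pool.Agent.Helper36.DE

open Pool.Agent.Helper98.DE
open Pool.Agent.Helper51.AJ (IsMinor Planar Apex ExMinor Con Tch)
open Pool.Agent.Helper12.NK (rst Kc cnt)
open Pool.Agent.Helper12.MA (dl Srv)

/-- the combinatorial part -/
private lemma comb (hPCI : StPCI) (hCRI : StCRI) (hSVB : StSVB) (hYB4 : StYB4) (hHG2 : StHG2)
    (V : Type) [Fintype V] (G : SimpleGraph V) (hG : Critical G) :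
    6 ≤ Fintype.card V ∧ (G.edgeSet.ncard = 0 ∨ ∃ D : ℕ,
      G.edgeSet.ncard + 8 ≤ 3 * Fintype.card V + D ∧
      (D ≤ 8 ∨ (9 ≤ D ∧ ∃ k : ℕ, D ≤ 4 * k ∧ 3 ≤ k ∧ k * D + 16 ≤ 2 * Fintype.card V + 7 * k))) := by
  classical
  obtain ⟨c1, c2, c3⟩ := hCRI V G hG
  rw [Nat.card_eq_fintype_card] at c2
  refine ⟨c2, ?_⟩
  obtain ⟨-, -, -, -, -, p6, p7⟩ := hPCI V G Finset.univ
  have h2m : 2 * G.edgeSet.ncard = ∑ v, dg G v := by rw [← p7, p6]
  rcases G.edgeSet.eq_empty_or_nonempty with h0 | ⟨e, he⟩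
  · left
    rw [h0, Set.ncard_empty]
  right
  set Z : Finset V := Finset.univ.filter (fun s => ∃ x y, G.Adj x y ∧ Srv G s x y) with hZ
  have hZne : Z.Nonempty := by
    induction e using Sym2.ind with
    | _ x y =>
      rw [SimpleGraph.mem_edgeSet] at he
      obtain ⟨s, hs⟩ := c3 x y he
      exact ⟨s, Finset.mem_filter.2 ⟨Finset.mem_univ s, x, y, he, hs⟩⟩
  obtain ⟨z, hz, hmin⟩ := Finset.exists_min_image Z (dg G) hZne
  obtain ⟨x, y, hxy, hs⟩ := (Finset.mem_filter.1 hz).2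
  have hb := (hSVB V G (by omega) z x y hs).1
  refine ⟨dg G z, by omega, ?_⟩
  have hk4 : dg G z ≤ 4 * (Z.erase z).card := by
    have h1 : dg G z ≤ ((Z.erase z).biUnion
        (fun b => Finset.univ.filter (fun y => G.Adj z y ∧ Srv G b z y))).card := by
      unfold dg
      rw [← Set.ncard_coe_finset]
      apply Set.ncard_le_ncard _ (Finset.finite_toSet _)
      intro w hw
      have hw' : G.Adj z w := hw
      obtain ⟨b, hb'⟩ := c3 z w hw'
      rw [Finset.mem_coe, Finset.mem_biUnion]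
      refine ⟨b, Finset.mem_erase.2 ⟨hb'.1, Finset.mem_filter.2 ⟨Finset.mem_univ b, z, w, hw', hb'⟩⟩,
        Finset.mem_filter.2 ⟨Finset.mem_univ w, hw', hb'⟩⟩
    have h2 := Finset.card_biUnion_le_card_mul (Z.erase z)
      (fun b => Finset.univ.filter (fun y => G.Adj z y ∧ Srv G b z y)) 4 (by
        intro b _
        have h3 := hYB4 V G c1 b z
        have h4 : {y | G.Adj z y ∧ Srv G b z y} =
            ((Finset.univ.filter (fun y => G.Adj z y ∧ Srv G b z y) : Finset V) : Set V) := by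
          ext y
          simp
        rw [h4, Set.ncard_coe_finset] at h3
        exact h3)
    omega
  rcases Nat.lt_or_ge 8 (dg G z) with h9 | h8
  · right
    have hk : 3 ≤ (Z.erase z).card := by omega
    refine ⟨h9, (Z.erase z).card, hk4, hk, ?_⟩
    have h2 := hHG2 V G (by omega) z x y hs (Z.erase z) (Finset.notMem_erase z Z) hk
    have h3 : (Z.erase z).card * dg G z ≤ ∑ w ∈ Z.erase z, dg G w := by
      rw [← smul_eq_mul]
      exact Finset.card_nsmul_le_sum _ _ _ fun w hw => hmin w (Finset.mem_of_mem_erase hw)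
    omega
  · exact Or.inl h8

theorem hSQ2 : StPCI -> StCRI -> StSVB -> StYB4 -> StHG2 -> StSQ2 := by
  intro hPCI hCRI hSVB hYB4 hHG2 V _ G hG
  obtain ⟨h6, h⟩ := comb hPCI hCRI hSVB hYB4 hHG2 V G hG
  generalize Fintype.card V = n at h6 h ⊢
  generalize G.edgeSet.ncard = m at h ⊢
  have h6R : (6 : ℝ) ≤ n := by exact_mod_cast h6
  have hsq : (9 / 2 : ℝ) ≤ 2 * Real.sqrt (2 * (n : ℝ)) := by
    have : (9 / 4 : ℝ) ≤ Real.sqrt (2 * (n : ℝ)) := by
      apply Real.le_sqrt_of_sq_le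
      norm_num
      linarith
    linarith
  rcases h with h | ⟨D, hD, h | ⟨h9, k, hk1, hk2, hk3⟩⟩
  · rw [h]
    refine ⟨Or.inl (by omega), ?_⟩
    push_cast
    linarith
  · have hm : m ≤ 3 * n := by omega
    refine ⟨Or.inl hm, ?_⟩
    have : (m : ℝ) ≤ 3 * n := by exact_mod_cast hm
    linarith
  · obtain ⟨e, rfl⟩ : ∃ e, D = e + 9 := ⟨D - 9, by omega⟩
    have h1 : k * (e + 2) + 16 ≤ 2 * n := by nlinarith
    refine ⟨Or.inr ?_, ?_⟩
    · nlinarith
    · have h1R : (k : ℝ) * (e + 2) + 16 ≤ 2 * n := by exact_mod_cast h1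
      have hk1R : (e : ℝ) + 9 ≤ 4 * k := by exact_mod_cast hk1
      have he : (0 : ℝ) ≤ e := Nat.cast_nonneg e
      have hDR : (m : ℝ) + 8 ≤ 3 * n + (e + 9) := by exact_mod_cast hD
      have h2 : ((e : ℝ) + 9 - 7 / 2) ≤ 2 * Real.sqrt (2 * (n : ℝ)) := by
        have h3 : ((e : ℝ) + 9 - 7 / 2) / 2 ≤ Real.sqrt (2 * (n : ℝ)) := by
          apply Real.le_sqrt_of_sq_le
          nlinarith
        linarith
      linarith

end Pool.Agent.Helper36.DE
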